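import Mathlib

/-!
Three-state number-conserving automata with a neighbourhood of Sidon type: configurations with at
most three nonzero cells.
-/

set_option autoImplicit false
set_option linter.unusedSectionVars false

open scoped BigOperators

namespace Pool.Agent.V5helper96.CA

open Classical in
/-- unit mass at `w` -/
noncomputable def dl {V : Type*} (w : V) : V → ℤ := fun v => if v = w then 1 else 0

open Classical in
/-- one nonzero cell -/
noncomputable def c1 {V : Type*} (a : Fin 3) (p : V) : V → Fin 3 := fun v => if v = p then a else 0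

open Classical in
/-- two nonzero cells -/
noncomputable def c2 {V : Type*} (a : Fin 3) (p : V) (b : Fin 3) (q : V) : V → Fin 3 :=
  fun v => if v = p then a else if v = q then b else 0

open Classical in
/-- three nonzero cells -/
noncomputable def c3 {V : Type*} (a : Fin 3) (p : V) (b : Fin 3) (q : V) (c : Fin 3) (r : V) :
    V → Fin 3 :=
  fun v => if v = p then a else if v = q then b else if v = r then c else 0

/-- the integer values of a configuration -/
def iv {V : Type*} (x : V → Fin 3) : V → ℤ := fun v => ((x v : ℕ) : ℤ)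

theorem iv_nonneg {V : Type*} (x : V → Fin 3) (v : V) : 0 ≤ iv x v := by
  unfold iv; positivity

theorem iv_le {V : Type*} (x : V → Fin 3) (v : V) : iv x v ≤ 2 := by
  unfold iv
  have := (x v).isLt
  omega

theorem iv_inj {V : Type*} {x y : V → Fin 3} (h : iv x = iv y) : x = y := by
  funext v
  have := congrFun h v
  unfold iv at this
  exact Fin.ext (by exact_mod_cast this)

theorem dl_self {V : Type*} (w : V) : dl w w = 1 := by unfold dl; rw [if_pos rfl]

theorem dl_ne {V : Type*} {w v : V} (h : v ≠ w) : dl w v = 0 := by unfold dl; rw [if_neg h]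

theorem dl_nonneg {V : Type*} (w v : V) : 0 ≤ dl w v := by
  unfold dl; split_ifs <;> norm_num

theorem iv_c1 {V : Type*} (a : Fin 3) (p v : V) : iv (c1 a p) v = ((a : ℕ) : ℤ) * dl p v := by
  unfold iv c1 dl
  split_ifs <;> simp

theorem iv_c2 {V : Type*} (a b : Fin 3) {p q : V} (h : p ≠ q) (v : V) :
    iv (c2 a p b q) v = iv (c1 a p) v + iv (c1 b q) v := by
  unfold iv c2 c1
  by_cases h1 : v = p
  · subst h1
    simp [h]
  · simp [h1]

theorem iv_c3 {V : Type*} (a b c : Fin 3) {p q r : V} (h : p ≠ q) (h2 : q ≠ r) (h3 : p ≠ r)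
    (v : V) :
    iv (c3 a p b q c r) v = iv (c1 a p) v + iv (c1 b q) v + iv (c1 c r) v := by
  unfold iv c3 c1
  by_cases h1 : v = p
  · subst h1
    simp [h, h3]
  · by_cases h4 : v = q
    · subst h4
      simp [h1, h2]
    · simp [h1, h4]

/-- The setting. `V` is the group of cells; it is a commutative ring only for convenience. -/
structure Sys {V : Type*} [CommRing V] (N : Finset V) (F : (V → Fin 3) → V → Fin 3) : Prop where
  loc : ∀ (x y : V → Fin 3) (v : V), (∀ u ∈ N, x (v + u) = y (v + u)) → F x v = F y v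
  eqv : ∀ (x : V → Fin 3) (w v : V), F (fun t => x (t + w)) v = F x (v + w)
  zero : ∀ v, F (fun _ => 0) v = 0
  cons : ∀ (x : V → Fin 3) (W : Finset V), (∀ v, v ∉ W → x v = 0) → (∀ v, v ∉ W → F x v = 0) →
    ∑ v ∈ W, iv (F x) v = ∑ v ∈ W, iv x v
  inj : ∀ x y : V → Fin 3, F x = F y → x = y
  N0 : (0 : V) ∈ N
  Nneg : ∀ u ∈ N, -u ∈ N
  sid : ∀ u ∈ N, ∀ u' ∈ N, ∀ t ∈ N, ∀ t' ∈ N, u' - u = t' - t → u' ≠ u → t = u ∨ t = -u'
  tf : ∀ v : V, v + v = 0 → v = 0

section
variable {V : Type*} [CommRing V] {N : Finset V} {F : (V → Fin 3) → V → Fin 3}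

open Classical in
/-- cells which see a finite set -/
noncomputable def see (N : Finset V) (X : Finset V) : Finset V :=
  X.biUnion fun p => N.image fun u => p - u

theorem not_see {X : Finset V} {v : V} (h : v ∉ see N X) {p : V} (hp : p ∈ X) : p - v ∉ N := by
  classical
  intro hc
  apply h
  unfold see
  rw [Finset.mem_biUnion]
  exact ⟨p, hp, Finset.mem_image.2 ⟨p - v, hc, by ring⟩⟩

theorem Sys.vanish (S : Sys N F) {x : V → Fin 3} {v : V} (h : ∀ u ∈ N, x (v + u) = 0) :
    F x v = 0 := by
  rw [S.loc x (fun _ => 0) v (fun u hu => h u hu)]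
  exact S.zero v

theorem Sys.cons' (S : Sys N F) (x : V → Fin 3) (X : Finset V) (hX : ∀ v, v ∉ X → x v = 0) :
    ∑ v ∈ see N X, iv (F x) v = ∑ v ∈ see N X, iv x v := by
  apply S.cons
  · intro v hv
    apply hX
    intro hc
    apply not_see hv hc
    rw [sub_self]; exact S.N0
  · intro v hv
    apply S.vanish
    intro u hu
    apply hX
    intro hc
    apply not_see hv hc
    have : v + u - v = u := by ring
    rw [this]; exact hu

/-- the value at `v` depends only on the cells seen from `v` -/
theorem Sys.near (S : Sys N F) {x y : V → Fin 3} {v : V} (h : ∀ t, t - v ∈ N → x t = y t) :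
    iv (F x) v = iv (F y) v := by
  unfold iv
  rw [S.loc x y v fun u hu => h (v + u) (by rw [add_sub_cancel_left]; exact hu)]

theorem Sys.iv_zero (S : Sys N F) {x : V → Fin 3} {v : V} (h : ∀ t, t - v ∈ N → x t = 0) :
    iv (F x) v = 0 := by
  have := S.near (y := fun _ => 0) h
  rw [this]
  unfold iv
  rw [S.zero]; rfl

theorem Sys.shift1 (S : Sys N F) (a : Fin 3) (p v : V) :
    iv (F (c1 a p)) v = iv (F (c1 a 0)) (v - p) := by
  have h := S.eqv (c1 a 0) (-p) v
  have e : (fun t => c1 a 0 (t + -p)) = c1 a p := by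
    funext t
    have h0 : (t + -p = 0) ↔ t = p := by rw [← sub_eq_add_neg, sub_eq_zero]
    show c1 a 0 (t + -p) = c1 a p t
    unfold c1
    by_cases h1 : t = p
    · rw [if_pos h1, if_pos (h0.2 h1)]
    · rw [if_neg h1, if_neg (fun h2 => h1 (h0.1 h2))]
  rw [e] at h
  unfold iv
  rw [h, ← sub_eq_add_neg]

theorem Sys.shift2 (S : Sys N F) (a b : Fin 3) (p q w v : V) :
    iv (F (c2 a (p + w) b (q + w))) v = iv (F (c2 a p b q)) (v - w) := by
  have h := S.eqv (c2 a p b q) (-w) v
  have e : (fun t => c2 a p b q (t + -w)) = c2 a (p + w) b (q + w) := by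
    funext t
    have h1 : (t + -w = p) ↔ t = p + w := by rw [← sub_eq_add_neg, sub_eq_iff_eq_add]
    have h2 : (t + -w = q) ↔ t = q + w := by rw [← sub_eq_add_neg, sub_eq_iff_eq_add]
    show c2 a p b q (t + -w) = c2 a (p + w) b (q + w) t
    unfold c2
    by_cases h3 : t = p + w
    · rw [if_pos h3, if_pos (h1.2 h3)]
    · rw [if_neg h3, if_neg (fun h4 => h3 (h1.1 h4))]
      by_cases h5 : t = q + w
      · rw [if_pos h5, if_pos (h2.2 h5)]
      · rw [if_neg h5, if_neg (fun h4 => h5 (h2.1 h4))]
  rw [e] at h
  unfold iv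
  rw [h, ← sub_eq_add_neg]

theorem c2_comm (a b : Fin 3) {p q : V} (h : p ≠ q) : c2 a p b q = c2 b q a p := by
  funext v
  unfold c2
  by_cases h1 : v = p
  · subst h1; simp [h]
  · simp [h1]

theorem seen_two {p q z z' : V} (S : Sys N F) (hpq : p ≠ q) (h1 : p - z ∈ N) (h2 : q - z ∈ N)
    (h3 : p - z' ∈ N) (h4 : q - z' ∈ N) : z' = z ∨ z + z' = p + q := by
  have h := S.sid (p - z) h1 (q - z) h2 (p - z') h3 (q - z') h4 (by ring)
    (fun hc => hpq (by linear_combination -hc))
  rcases h with h | h
  · left; linear_combination -h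
  · right; linear_combination -h

/-- pair interaction -/
theorem Sys.pair (S : Sys N F) (a b : Fin 3) {p q : V} (hpq : p ≠ q) :
    iv (F (c2 a p b q)) = iv (F (c1 a p)) + iv (F (c1 b q)) ∨
    ∃ z z' : V, z ≠ z' ∧ z + z' = p + q ∧ p - z ∈ N ∧ q - z ∈ N ∧ p - z' ∈ N ∧ q - z' ∈ N ∧
      ∃ c : ℤ, 0 < c ∧
        iv (F (c2 a p b q)) = iv (F (c1 a p)) + iv (F (c1 b q)) + c • dl z - c • dl z' := by
  classical
  set T : V → ℤ := fun v => iv (F (c2 a p b q)) v - iv (F (c1 a p)) v - iv (F (c1 b q)) v with hT
  -- support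
  have hsupp : ∀ v, ¬ (p - v ∈ N ∧ q - v ∈ N) → T v = 0 := by
    intro v hv
    by_cases hp : p - v ∈ N
    · have hq : q - v ∉ N := fun hq => hv ⟨hp, hq⟩
      have e1 : iv (F (c2 a p b q)) v = iv (F (c1 a p)) v := by
        apply S.near
        intro t ht
        have htq : t ≠ q := fun h => hq (h ▸ ht)
        unfold c2 c1
        simp [htq]
      have e2 : iv (F (c1 b q)) v = 0 := by
        apply S.iv_zero
        intro t ht
        have htq : t ≠ q := fun h => hq (h ▸ ht)
        unfold c1
        simp [htq]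
      simp only [hT, e1, e2]; ring
    · have e1 : iv (F (c2 a p b q)) v = iv (F (c1 b q)) v := by
        apply S.near
        intro t ht
        have htp : t ≠ p := fun h => hp (h ▸ ht)
        unfold c2 c1
        simp [htp]
      have e2 : iv (F (c1 a p)) v = 0 := by
        apply S.iv_zero
        intro t ht
        have htp : t ≠ p := fun h => hp (h ▸ ht)
        unfold c1
        simp [htp]
      simp only [hT, e1, e2]; ring
  -- sum zero
  set W := see N ({p, q} : Finset V) with hW
  have hsum : ∑ v ∈ W, T v = 0 := by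
    have h1 := S.cons' (c2 a p b q) {p, q} (by
      intro v hv
      simp only [Finset.mem_insert, Finset.mem_singleton, not_or] at hv
      unfold c2; simp [hv.1, hv.2])
    have h2 := S.cons' (c1 a p) {p, q} (by
      intro v hv
      simp only [Finset.mem_insert, Finset.mem_singleton, not_or] at hv
      unfold c1; simp [hv.1])
    have h3 := S.cons' (c1 b q) {p, q} (by
      intro v hv
      simp only [Finset.mem_insert, Finset.mem_singleton, not_or] at hv
      unfold c1; simp [hv.2])
    simp only [hT]
    rw [Finset.sum_sub_distrib, Finset.sum_sub_distrib, h1, h2, h3,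
      ← Finset.sum_sub_distrib, ← Finset.sum_sub_distrib]
    apply Finset.sum_eq_zero
    intro v _
    rw [iv_c2 a b hpq]; ring
  have hTW : ∀ v, T v ≠ 0 → v ∈ W := by
    intro v hv
    by_contra hc
    apply hv
    apply hsupp
    rintro ⟨h1, -⟩
    exact not_see hc (by simp) h1
  by_cases hall : ∀ v, T v = 0
  · left
    funext v
    have := hall v
    simp only [hT] at this
    simp only [Pi.add_apply]
    linarith
  · right
    push Not at hall
    obtain ⟨z0, hz0⟩ := hall
    have hz0s : p - z0 ∈ N ∧ q - z0 ∈ N := by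
      by_contra hc; exact hz0 (hsupp z0 hc)
    set z1 := p + q - z0 with hz1
    have hoff : ∀ v, v ≠ z0 → v ≠ z1 → T v = 0 := by
      intro v h0 h1
      by_contra hc
      have hvs : p - v ∈ N ∧ q - v ∈ N := by
        by_contra hc'; exact hc (hsupp v hc')
      rcases seen_two S hpq hz0s.1 hz0s.2 hvs.1 hvs.2 with h | h
      · exact h0 h
      · exact h1 (by rw [hz1]; linear_combination h)
    have hne : z0 ≠ z1 := by
      intro he
      have : ∑ v ∈ W, T v = T z0 := by
        apply Finset.sum_eq_single_of_mem z0 (hTW z0 hz0)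
        intro v _ hv
        exact hoff v hv (he ▸ hv)
      rw [hsum] at this
      exact hz0 this.symm
    have hz1v : T z1 = -T z0 := by
      by_cases h1 : z1 ∈ W
      · have : ∑ v ∈ W, T v = T z0 + T z1 := by
          rw [← Finset.sum_pair hne]
          symm
          apply Finset.sum_subset
          · intro v hv
            rw [Finset.mem_insert, Finset.mem_singleton] at hv
            rcases hv with hv | hv
            · rw [hv]; exact hTW z0 hz0
            · rw [hv]; exact h1
          · intro v _ hv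
            rw [Finset.mem_insert, Finset.mem_singleton, not_or] at hv
            exact hoff v hv.1 hv.2
        linarith
      · exfalso
        have : ∑ v ∈ W, T v = T z0 := by
          apply Finset.sum_eq_single_of_mem z0 (hTW z0 hz0)
          intro v hvW hv
          exact hoff v hv (fun h => h1 (h ▸ hvW))
        rw [hsum] at this
        exact hz0 this.symm
    have hz1s : p - z1 ∈ N ∧ q - z1 ∈ N := by
      by_contra hc
      have := hsupp z1 hc
      rw [this] at hz1v
      exact hz0 (by linarith)
    have hform : ∀ v, T v = T z0 * dl z0 v - T z0 * dl z1 v := by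
      intro v
      by_cases h0 : v = z0
      · subst h0
        rw [dl_self, dl_ne hne]; ring
      · by_cases h1 : v = z1
        · rw [h1, dl_self, dl_ne (Ne.symm hne), hz1v]; ring
        · rw [dl_ne h0, dl_ne h1, hoff v h0 h1]; ring
    rcases lt_or_gt_of_ne hz0 with hneg | hpos
    · refine ⟨z1, z0, Ne.symm hne, by rw [hz1]; ring, hz1s.1, hz1s.2, hz0s.1, hz0s.2, -T z0,
        by linarith, ?_⟩
      funext v
      have := hform v
      have hTv : T v = iv (F (c2 a p b q)) v - iv (F (c1 a p)) v - iv (F (c1 b q)) v := rfl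
      simp only [Pi.add_apply, Pi.sub_apply, Pi.smul_apply, smul_eq_mul]
      linarith
    · refine ⟨z0, z1, hne, by rw [hz1]; ring, hz0s.1, hz0s.2, hz1s.1, hz1s.2, T z0, hpos, ?_⟩
      funext v
      have := hform v
      have hTv : T v = iv (F (c2 a p b q)) v - iv (F (c1 a p)) v - iv (F (c1 b q)) v := rfl
      simp only [Pi.add_apply, Pi.sub_apply, Pi.smul_apply, smul_eq_mul]
      linarith

/-- two cells at distance `2u` do not interact -/
theorem Sys.straight (S : Sys N F) (a b : Fin 3) (q : V) {u : V} (hu : u ∈ N) (hu0 : u ≠ 0) :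
    iv (F (c2 a q b (q + u + u))) = iv (F (c1 a q)) + iv (F (c1 b (q + u + u))) := by
  have hne : q ≠ q + u + u := by
    intro h
    apply hu0
    apply S.tf
    linear_combination -h
  rcases S.pair a b hne with h | ⟨z, z', hzz, hs, h1, h2, h3, h4, -⟩
  · exact h
  · exfalso
    have hm1 : q - (q + u) ∈ N := by
      have : q - (q + u) = -u := by ring
      rw [this]; exact S.Nneg u hu
    have hm2 : q + u + u - (q + u) ∈ N := by
      have : q + u + u - (q + u) = u := by ring
      rw [this]; exact hu
    have e1 : z = q + u := by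
      rcases seen_two S hne hm1 hm2 h1 h2 with h | h
      · exact h
      · linear_combination h
    have e2 : z' = q + u := by
      rcases seen_two S hne hm1 hm2 h3 h4 with h | h
      · exact h
      · linear_combination h
    exact hzz (e1.trans e2.symm)

/-- three cells interact pairwise only -/
theorem Sys.triple (S : Sys N F) (a b c : Fin 3) {p q r : V} (hpq : p ≠ q) (hqr : q ≠ r)
    (hpr : p ≠ r) (v : V) :
    iv (F (c3 a p b q c r)) v =
      iv (F (c2 a p b q)) v + iv (F (c2 b q c r)) v + iv (F (c2 a p c r)) v -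
        iv (F (c1 a p)) v - iv (F (c1 b q)) v - iv (F (c1 c r)) v := by
  classical
  set T : V → ℤ := fun v => iv (F (c3 a p b q c r)) v -
    (iv (F (c2 a p b q)) v + iv (F (c2 b q c r)) v + iv (F (c2 a p c r)) v -
        iv (F (c1 a p)) v - iv (F (c1 b q)) v - iv (F (c1 c r)) v) with hT
  have hsupp : ∀ v, ¬ (p - v ∈ N ∧ q - v ∈ N ∧ r - v ∈ N) → T v = 0 := by
    intro v hv
    by_cases hp : p - v ∈ N
    · by_cases hq : q - v ∈ N
      · have hr : r - v ∉ N := fun hr => hv ⟨hp, hq, hr⟩
        have key : ∀ t, t - v ∈ N → t ≠ r := fun t ht h => hr (h ▸ ht)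
        have e1 : iv (F (c3 a p b q c r)) v = iv (F (c2 a p b q)) v :=
          S.near fun t ht => by unfold c3 c2; simp [key t ht]
        have e2 : iv (F (c2 b q c r)) v = iv (F (c1 b q)) v :=
          S.near fun t ht => by unfold c2 c1; simp [key t ht]
        have e3 : iv (F (c2 a p c r)) v = iv (F (c1 a p)) v :=
          S.near fun t ht => by unfold c2 c1; simp [key t ht]
        have e4 : iv (F (c1 c r)) v = 0 :=
          S.iv_zero fun t ht => by unfold c1; simp [key t ht]
        simp only [hT, e1, e2, e3, e4]; ring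
      · have key : ∀ t, t - v ∈ N → t ≠ q := fun t ht h => hq (h ▸ ht)
        have e1 : iv (F (c3 a p b q c r)) v = iv (F (c2 a p c r)) v :=
          S.near fun t ht => by unfold c3 c2; simp [key t ht]
        have e2 : iv (F (c2 b q c r)) v = iv (F (c1 c r)) v :=
          S.near fun t ht => by unfold c2 c1; simp [key t ht]
        have e3 : iv (F (c2 a p b q)) v = iv (F (c1 a p)) v :=
          S.near fun t ht => by unfold c2 c1; simp [key t ht]
        have e4 : iv (F (c1 b q)) v = 0 :=
          S.iv_zero fun t ht => by unfold c1; simp [key t ht]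
        simp only [hT, e1, e2, e3, e4]; ring
    · have key : ∀ t, t - v ∈ N → t ≠ p := fun t ht h => hp (h ▸ ht)
      have e1 : iv (F (c3 a p b q c r)) v = iv (F (c2 b q c r)) v :=
        S.near fun t ht => by unfold c3 c2; simp [key t ht]
      have e2 : iv (F (c2 a p b q)) v = iv (F (c1 b q)) v :=
        S.near fun t ht => by unfold c2 c1; simp [key t ht]
      have e3 : iv (F (c2 a p c r)) v = iv (F (c1 c r)) v :=
        S.near fun t ht => by unfold c2 c1; simp [key t ht]
      have e4 : iv (F (c1 a p)) v = 0 :=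
        S.iv_zero fun t ht => by unfold c1; simp [key t ht]
      simp only [hT, e1, e2, e3, e4]; ring
  set W := see N ({p, q, r} : Finset V) with hW
  have hsum : ∑ v ∈ W, T v = 0 := by
    have hX : ∀ v, v ∉ ({p, q, r} : Finset V) → v ≠ p ∧ v ≠ q ∧ v ≠ r := by
      intro v hv
      simp only [Finset.mem_insert, Finset.mem_singleton, not_or] at hv
      exact hv
    have h0 := S.cons' (c3 a p b q c r) {p, q, r} (fun v hv => by
      obtain ⟨h1, h2, h3⟩ := hX v hv; unfold c3; simp [h1, h2, h3])
    have h1 := S.cons' (c2 a p b q) {p, q, r} (fun v hv => by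
      obtain ⟨h1, h2, h3⟩ := hX v hv; unfold c2; simp [h1, h2])
    have h2 := S.cons' (c2 b q c r) {p, q, r} (fun v hv => by
      obtain ⟨h1, h2, h3⟩ := hX v hv; unfold c2; simp [h2, h3])
    have h3 := S.cons' (c2 a p c r) {p, q, r} (fun v hv => by
      obtain ⟨h1, h2, h3⟩ := hX v hv; unfold c2; simp [h1, h3])
    have h4 := S.cons' (c1 a p) {p, q, r} (fun v hv => by
      obtain ⟨h1, h2, h3⟩ := hX v hv; unfold c1; simp [h1])
    have h5 := S.cons' (c1 b q) {p, q, r} (fun v hv => by
      obtain ⟨h1, h2, h3⟩ := hX v hv; unfold c1; simp [h2])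
    have h6 := S.cons' (c1 c r) {p, q, r} (fun v hv => by
      obtain ⟨h1, h2, h3⟩ := hX v hv; unfold c1; simp [h3])
    simp only [hT]
    simp only [Finset.sum_sub_distrib, Finset.sum_add_distrib]
    rw [← hW] at h0 h1 h2 h3 h4 h5 h6
    rw [h0, h1, h2, h3, h4, h5, h6]
    simp only [← Finset.sum_sub_distrib, ← Finset.sum_add_distrib]
    apply Finset.sum_eq_zero
    intro v _
    rw [iv_c3 a b c hpq hqr hpr, iv_c2 a b hpq, iv_c2 b c hqr, iv_c2 a c hpr]; ring
  have hT0 : ∀ v, T v = 0 := by
    by_contra hcon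
    push Not at hcon
    obtain ⟨z, hz⟩ := hcon
    have hzs : p - z ∈ N ∧ q - z ∈ N ∧ r - z ∈ N := by
      by_contra hc; exact hz (hsupp z hc)
    have hoff : ∀ v, v ≠ z → T v = 0 := by
      intro v hv
      by_contra hc
      have hvs : p - v ∈ N ∧ q - v ∈ N ∧ r - v ∈ N := by
        by_contra hc'; exact hc (hsupp v hc')
      rcases seen_two S hpq hzs.1 hzs.2.1 hvs.1 hvs.2.1 with h | h
      · exact hv h
      · rcases seen_two S hqr hzs.2.1 hzs.2.2 hvs.2.1 hvs.2.2 with h' | h'
        · exact hv h'
        · exact hpr (by linear_combination h' - h)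
    have hzW : z ∈ W := by
      by_contra hc
      exact not_see hc (by simp) hzs.1
    have : ∑ v ∈ W, T v = T z := Finset.sum_eq_single_of_mem z hzW fun v _ hv => hoff v hv
    rw [hsum] at this
    exact hz this.symm
  have := hT0 v
  simp only [hT] at this
  linarith

end

end Pool.Agent.V5helper96.CA
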