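import Mathlib

/-!
Three-state cellular automata on `ℤ^d` with the von Neumann neighbourhood.
-/

set_option autoImplicit false

open scoped BigOperators

namespace Pool.Agent.V5helper96.CA

/-- The von Neumann neighbourhood `{0, ± e_1, …, ± e_d}` of the origin of `ℤ^d`. -/
def nbhd (d : ℕ) : Set (Fin d → ℤ) := {u | u = 0 ∨ ∃ i, u = Pi.single i 1 ∨ u = -Pi.single i 1}

/-- The global map of the cellular automaton with the local rule `f`:
`F(x)_v = f ((x_{v+u})_{u ∈ N})`. -/
def globalMap {d : ℕ} (f : (nbhd d → Fin 3) → Fin 3) (x : (Fin d → ℤ) → Fin 3) :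
    (Fin d → ℤ) → Fin 3 := fun v => f fun u => x (v + u)

/-- `F` is number-conserving: for all periods `p_1, …, p_d ≥ 1` and every configuration `x` with
`x (v + p_i e_i) = x v` for all `v` and `i`, the sums of the states of `x` and of `F x` over the
period `[0, p_1) × … × [0, p_d)` are equal. -/
def NumberConserving {d : ℕ} (F : ((Fin d → ℤ) → Fin 3) → (Fin d → ℤ) → Fin 3) : Prop :=
  ∀ p : Fin d → ℕ, (∀ i, 0 < p i) → ∀ x : (Fin d → ℤ) → Fin 3,
    (∀ v i, x (v + Pi.single i (p i : ℤ)) = x v) →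
    ∑ v ∈ Fintype.piFinset (fun i => Finset.Ico (0 : ℤ) (p i)), (F x v : ℕ) =
      ∑ v ∈ Fintype.piFinset (fun i => Finset.Ico (0 : ℤ) (p i)), (x v : ℕ)

end Pool.Agent.V5helper96.CA
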