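import Pool.Agent.V5helper96.CA.Main

/-!
Three-state number-conserving injective automata with a neighbourhood of Sidon type are shifts:
conclusion.
-/

set_option autoImplicit false
set_option linter.unusedSectionVars false

open scoped BigOperators

namespace Pool.Agent.V5helper96.CA

section
variable {V : Type*} [CommRing V] {N : Finset V} {F : (V → Fin 3) → V → Fin 3}

theorem dl_shift' (m p v : V) : dl p (v - m) = dl (p + m) v := by
  rw [dl_shift, add_comm]

theorem fin3 (a : Fin 3) : a = 0 ∨ a = 1 ∨ a = 2 := by
  fin_cases a <;> simp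

/-- all pairs are shifted -/
theorem pairs (S : Sys N F) : ∃ m : V, -m ∈ N ∧
    (∀ (a : Fin 3) (p v : V), iv (F (c1 a p)) v = iv (c1 a p) (v - m)) ∧
    ∀ (a b : Fin 3) (p q : V), p ≠ q → ∀ v, iv (F (c2 a p b q)) v = iv (c2 a p b q) (v - m) := by
  obtain ⟨m, hm, h1⟩ := single1 S
  obtain ⟨⟨n, hn, h2⟩, h11⟩ := twos S hm h1
  have hnm := same S hm hn h1 h2 h11
  subst hnm
  have h21 : ∀ p q : V, p ≠ q → ∀ v, iv (F (c2 2 p 1 q)) v = 2 * dl (p + n) v + dl (q + n) v :=
    fun p q hpq v => two_one' S hm h1 h2 h11 hpq v
  have h22 : ∀ p q : V, p ≠ q → ∀ v,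
      iv (F (c2 2 p 2 q)) v = 2 * dl (p + n) v + 2 * dl (q + n) v :=
    fun p q hpq v => two_two S hm h1 h2 h11 hpq v
  have hs : ∀ (a : Fin 3) (p v : V), iv (F (c1 a p)) v = iv (c1 a p) (v - n) := by
    intro a p v
    rw [iv_c1, dl_shift']
    rcases fin3 a with rfl | rfl | rfl
    · rw [S.iv_zero fun t _ => by unfold c1; simp]; simp
    · rw [h1]; simp
    · rw [h2]; simp
  refine ⟨n, S.Nneg n hm, hs, fun a b p q hpq v => ?_⟩
  have hc0 : ∀ (b : Fin 3) (p q : V), p ≠ q → c2 0 p b q = c1 b q := by
    intro b p q hpq
    funext t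
    unfold c2 c1
    by_cases h : t = p
    · subst h; simp [hpq]
    · simp [h]
  have hc0' : ∀ (a : Fin 3) (p q : V), c2 a p 0 q = c1 a p := by
    intro a p q
    funext t
    unfold c2 c1
    by_cases h : t = p
    · simp [h]
    · simp [h]
  rcases fin3 a with rfl | ha
  · rw [hc0 b p q hpq, hs]
  · rcases fin3 b with rfl | hb
    · rw [hc0', hs]
    · rw [iv_c2 _ _ hpq, iv_c1, iv_c1, dl_shift', dl_shift']
      rcases ha with rfl | rfl <;> rcases hb with rfl | rfl
      · rw [h11 p q hpq]; simp
      · rw [c2_comm 1 2 hpq, h21 q p (Ne.symm hpq)]; simp [add_comm]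
      · rw [h21 p q hpq]; simp
      · rw [h22 p q hpq]; simp

theorem final (S : Sys N F) : ∃ u ∈ N, ∀ x v, F x v = x (v + u) := by
  classical
  obtain ⟨m, hm, hs, hp⟩ := pairs S
  refine ⟨-m, hm, fun x v => ?_⟩
  set y : V → Fin 3 := fun t => if t - v ∈ N then x t else 0 with hy
  set X : Finset V := N.image fun u => v + u with hX
  have hXm : ∀ t, t ∈ X ↔ t - v ∈ N := by
    intro t
    rw [hX, Finset.mem_image]
    constructor
    · rintro ⟨u, hu, rfl⟩
      rw [add_sub_cancel_left]; exact hu
    · intro h
      exact ⟨t - v, h, by ring⟩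
  have hy0 : ∀ t, t ∉ X → y t = 0 := by
    intro t ht
    rw [hXm] at ht
    simp only [hy, if_neg ht]
  have hxy : F x v = F y v := by
    apply S.loc
    intro u hu
    simp only [hy, add_sub_cancel_left, if_pos hu]
  -- away from `v` at most two cells of `y` are seen
  have hoff : ∀ v', v' ≠ v → iv (F y) v' = iv y (v' - m) := by
    intro v' hv'
    have hmN : v' - m - v' ∈ N := by
      have : v' - m - v' = -m := by ring
      rw [this]; exact hm
    by_cases hex : ∃ t, t - v ∈ N ∧ t - v' ∈ N
    · obtain ⟨t1, ht1, ht1'⟩ := hex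
      set t2 := v + v' - t1 with ht2
      have honly : ∀ t, t - v ∈ N → t - v' ∈ N → t = t1 ∨ t = t2 := by
        intro t h h'
        rcases S.sid (t1 - v') ht1' (t1 - v) ht1 (t - v') h' (t - v) h (by ring)
          (fun hc => hv' (by linear_combination hc)) with h3 | h3
        · left; linear_combination h3
        · right; rw [ht2]; linear_combination h3
      by_cases h12 : t1 = t2
      · have heq : ∀ t, t - v' ∈ N → y t = c1 (y t1) t1 t := by
          intro t ht
          unfold c1
          by_cases h3 : t = t1
          · rw [if_pos h3, h3]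
          · rw [if_neg h3]
            by_cases h4 : t - v ∈ N
            · exfalso
              rcases honly t h4 ht with h5 | h5
              · exact h3 h5
              · exact h3 (h5.trans h12.symm)
            · simp only [hy, if_neg h4]
        rw [S.near heq, hs]
        unfold iv
        rw [heq (v' - m) hmN]
      · have heq : ∀ t, t - v' ∈ N → y t = c2 (y t1) t1 (y t2) t2 t := by
          intro t ht
          unfold c2
          by_cases h3 : t = t1
          · rw [if_pos h3, h3]
          · rw [if_neg h3]
            by_cases h5 : t = t2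
            · rw [if_pos h5, h5]
            · rw [if_neg h5]
              by_cases h4 : t - v ∈ N
              · exfalso
                rcases honly t h4 ht with h6 | h6
                · exact h3 h6
                · exact h5 h6
              · simp only [hy, if_neg h4]
        rw [S.near heq, hp _ _ _ _ h12]
        unfold iv
        rw [heq (v' - m) hmN]
    · push Not at hex
      have hz : ∀ t, t - v' ∈ N → y t = 0 := by
        intro t ht
        have : t - v ∉ N := fun h => hex t h ht
        simp only [hy, if_neg this]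
      rw [S.iv_zero hz]
      unfold iv
      rw [hz (v' - m) hmN]; rfl
  set W := see N X with hW
  have hXW : X ⊆ W := by
    intro t ht
    by_contra hc
    apply not_see hc ht
    rw [sub_self]; exact S.N0
  have hvX : v ∈ X := by rw [hXm, sub_self]; exact S.N0
  have hsum : ∑ v' ∈ W, iv (F y) v' = ∑ v' ∈ W, iv y v' := S.cons' y X hy0
  have hshift : ∑ v' ∈ W, iv y (v' - m) = ∑ v' ∈ W, iv y v' := by
    have h1 : ∑ v' ∈ W, iv y (v' - m) = ∑ t ∈ W.image fun v' => v' - m, iv y t := by
      rw [Finset.sum_image]
      intro a _ b _ h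
      exact sub_left_injective h
    rw [h1]
    have hz : ∀ t, t ∉ X → iv y t = 0 := by
      intro t ht
      unfold iv; rw [hy0 t ht]; rfl
    have h2 : ∑ t ∈ X, iv y t = ∑ t ∈ W.image fun v' => v' - m, iv y t := by
      apply Finset.sum_subset
      · intro t ht
        rw [Finset.mem_image]
        refine ⟨t + m, ?_, by ring⟩
        by_contra hc
        apply not_see hc ht
        have : t - (t + m) = -m := by ring
        rw [this]; exact hm
      · intro t _ ht
        exact hz t ht
    have h3 : ∑ t ∈ X, iv y t = ∑ t ∈ W, iv y t :=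
      Finset.sum_subset hXW fun t _ ht => hz t ht
    rw [← h2, h3]
  have hdiff : ∑ v' ∈ W, (iv (F y) v' - iv y (v' - m)) = 0 := by
    rw [Finset.sum_sub_distrib, hsum, hshift, sub_self]
  rw [Finset.sum_eq_single_of_mem v (hXW hvX) fun v' _ hv' => by rw [hoff v' hv', sub_self]]
    at hdiff
  have hfin : iv (F y) v = iv y (v - m) := by linarith
  have hyx : y (v - m) = x (v + -m) := by
    have h1 : v - m - v ∈ N := by
      have : v - m - v = -m := by ring
      rw [this]; exact hm
    have h2 : v + -m = v - m := by ring
    rw [h2]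
    show (if v - m - v ∈ N then x (v - m) else 0) = x (v - m)
    rw [if_pos h1]
  rw [hxy]
  unfold iv at hfin
  have : F y v = y (v - m) := Fin.ext (by exact_mod_cast hfin)
  rw [this, hyx]

end

end Pool.Agent.V5helper96.CA
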