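import Pool.Agent.V5helper96.CA.Core

/-!
Three-state number-conserving injective automata with a neighbourhood of Sidon type are shifts.
-/

set_option autoImplicit false
set_option linter.unusedSectionVars false

open scoped BigOperators

namespace Pool.Agent.V5helper96.CA

section
variable {V : Type*} [CommRing V] {N : Finset V} {F : (V → Fin 3) → V → Fin 3}

theorem one_mass {W : Finset V} {D : V → ℤ} (h0 : ∀ v, 0 ≤ D v) (hW : ∀ v, v ∉ W → D v = 0)
    (hs : ∑ v ∈ W, D v = 1) : ∃ m ∈ W, D = dl m := by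
  classical
  have hex : ∃ m ∈ W, D m ≠ 0 := by
    by_contra hc
    push Not at hc
    rw [Finset.sum_eq_zero hc] at hs
    norm_num at hs
  obtain ⟨m, hm, hDm⟩ := hex
  refine ⟨m, hm, ?_⟩
  have h1 := Finset.add_sum_erase W D hm
  have h2 : 0 ≤ ∑ v ∈ W.erase m, D v := Finset.sum_nonneg fun v _ => h0 v
  have h3 : 1 ≤ D m := by have := h0 m; omega
  have h4 : ∑ v ∈ W.erase m, D v = 0 := by omega
  have h5 : D m = 1 := by omega
  funext v
  by_cases hv : v = m
  · rw [hv, dl_self, h5]
  · rw [dl_ne hv]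
    by_cases hvW : v ∈ W
    · exact (Finset.sum_eq_zero_iff_of_nonneg fun v _ => h0 v).1 h4 v
        (Finset.mem_erase.2 ⟨hv, hvW⟩)
    · exact hW v hvW

theorem two_mass {W : Finset V} {D : V → ℤ} (h0 : ∀ v, 0 ≤ D v) (hW : ∀ v, v ∉ W → D v = 0)
    (hs : ∑ v ∈ W, D v = 2) :
    (∃ m ∈ W, ∀ v, D v = 2 * dl m v) ∨
      ∃ m ∈ W, ∃ n ∈ W, m ≠ n ∧ ∀ v, D v = dl m v + dl n v := by
  classical
  have hex : ∃ m ∈ W, D m ≠ 0 := by
    by_contra hc
    push Not at hc
    rw [Finset.sum_eq_zero hc] at hs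
    norm_num at hs
  obtain ⟨m, hm, hDm⟩ := hex
  have h3 : 1 ≤ D m := by have := h0 m; omega
  have hD' : ∑ v ∈ W, (D v - dl m v) = 1 := by
    rw [Finset.sum_sub_distrib, hs]
    have : ∑ v ∈ W, dl m v = 1 := by
      rw [Finset.sum_eq_single_of_mem m hm fun v _ hv => dl_ne hv, dl_self]
    rw [this]; norm_num
  obtain ⟨n, hn, hDn⟩ := one_mass (W := W) (D := fun v => D v - dl m v) (by
      intro v
      by_cases hv : v = m
      · rw [hv, dl_self]; omega
      · rw [dl_ne hv]; have := h0 v; omega) (by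
      intro v hv
      have : v ≠ m := fun h => hv (h ▸ hm)
      rw [dl_ne this, hW v hv]; norm_num) hD'
  have hDn' : ∀ v, D v = dl m v + dl n v := by
    intro v
    have := congrFun hDn v
    omega
  by_cases hmn : m = n
  · left
    refine ⟨m, hm, fun v => ?_⟩
    rw [hDn' v, hmn]; ring
  · right
    exact ⟨m, hm, n, hn, hmn, hDn'⟩

theorem mem_see_zero (S : Sys N F) {m : V} (h : m ∈ see N {0}) : m ∈ N := by
  classical
  unfold see at h
  rw [Finset.mem_biUnion] at h
  obtain ⟨p, hp, h⟩ := h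
  rw [Finset.mem_singleton] at hp
  subst hp
  obtain ⟨u, hu, rfl⟩ := Finset.mem_image.1 h
  rw [zero_sub]
  exact S.Nneg u hu

theorem sum_single (S : Sys N F) (a : Fin 3) :
    ∑ v ∈ see N {0}, iv (F (c1 a 0)) v = ((a : ℕ) : ℤ) := by
  classical
  rw [S.cons' (c1 a 0) {0} (by
    intro v hv
    rw [Finset.mem_singleton] at hv
    unfold c1; simp [hv])]
  simp only [iv_c1]
  have h0 : (0 : V) ∈ see N {0} := by
    by_contra hc
    apply not_see hc (Finset.mem_singleton_self 0)
    rw [sub_self]; exact S.N0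
  rw [Finset.sum_eq_single_of_mem 0 h0 fun v _ hv => by rw [dl_ne hv]; ring, dl_self]
  ring

theorem off_single (S : Sys N F) (a : Fin 3) (v : V) (hv : v ∉ see N {0}) :
    iv (F (c1 a 0)) v = 0 := by
  apply S.iv_zero
  intro t ht
  have : t ≠ 0 := by
    intro h
    subst h
    exact not_see hv (Finset.mem_singleton_self 0) ht
  unfold c1; simp [this]

theorem dl_shift (m p v : V) : dl m (v - p) = dl (p + m) v := by
  by_cases h : v - p = m
  · have : v = p + m := by rw [← h]; ring
    rw [h, dl_self, this, dl_self]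
  · have : v ≠ p + m := by
      intro h'; apply h; rw [h']; ring
    rw [dl_ne h, dl_ne this]

theorem single1 (S : Sys N F) : ∃ m ∈ N, ∀ p v, iv (F (c1 1 p)) v = dl (p + m) v := by
  obtain ⟨m, hm, h⟩ := one_mass (fun v => iv_nonneg _ v) (off_single S 1)
    (by rw [sum_single S 1]; rfl)
  refine ⟨m, mem_see_zero S hm, fun p v => ?_⟩
  rw [S.shift1, ← dl_shift, ← h]

theorem single2 (S : Sys N F) :
    (∃ n ∈ N, ∀ p v, iv (F (c1 2 p)) v = 2 * dl (p + n) v) ∨
      ∃ n ∈ N, ∃ n' ∈ N, n ≠ n' ∧ ∀ p v, iv (F (c1 2 p)) v = dl (p + n) v + dl (p + n') v := by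
  rcases two_mass (fun v => iv_nonneg _ v) (off_single S 2)
    (by rw [sum_single S 2]; rfl) with ⟨n, hn, h⟩ | ⟨n, hn, n', hn', hne, h⟩
  · left
    refine ⟨n, mem_see_zero S hn, fun p v => ?_⟩
    rw [S.shift1, h, dl_shift]
  · right
    refine ⟨n, mem_see_zero S hn, n', mem_see_zero S hn', hne, fun p v => ?_⟩
    rw [S.shift1, h, dl_shift, dl_shift]

/-- injectivity, used at one point -/
theorem Sys.clash (S : Sys N F) {x y : V → Fin 3} (h : ∀ v, iv (F x) v = iv (F y) v) (p : V)
    (hp : x p ≠ y p) : False :=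
  hp (congrFun (S.inj x y (iv_inj (funext h))) p)

theorem c2_p (a b : Fin 3) (p q : V) : c2 a p b q p = a := by unfold c2; simp
theorem c2_q (a b : Fin 3) {p q : V} (h : p ≠ q) : c2 a p b q q = b := by
  unfold c2; simp [Ne.symm h]
theorem c2_o (a b : Fin 3) {p q v : V} (h : v ≠ p) (h' : v ≠ q) : c2 a p b q v = 0 := by
  unfold c2; simp [h, h']
theorem c3_p (a b c : Fin 3) (p q r : V) : c3 a p b q c r p = a := by unfold c3; simp
theorem c3_q (a b c : Fin 3) {p q : V} (r : V) (h : p ≠ q) : c3 a p b q c r q = b := by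
  unfold c3; simp [Ne.symm h]

/-- pair interaction, pointwise form -/
theorem Sys.pair' (S : Sys N F) (a b : Fin 3) {p q : V} (hpq : p ≠ q) :
    (∀ v, iv (F (c2 a p b q)) v = iv (F (c1 a p)) v + iv (F (c1 b q)) v) ∨
    ∃ z z' : V, z ≠ z' ∧ z + z' = p + q ∧ q - z' ∈ N ∧ p - z' ∈ N ∧
      ∃ c : ℤ, 0 < c ∧ ∀ v,
        iv (F (c2 a p b q)) v =
          iv (F (c1 a p)) v + iv (F (c1 b q)) v + c * dl z v - c * dl z' v := by
  rcases S.pair a b hpq with h | ⟨z, z', h1, h2, h3, h4, h5, h6, c, hc, h⟩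
  · left; intro v; rw [h]; rfl
  · right
    refine ⟨z, z', h1, h2, h6, h5, c, hc, fun v => ?_⟩
    rw [h]
    simp only [Pi.add_apply, Pi.sub_apply, Pi.smul_apply, smul_eq_mul]

/-- neighbours -/
theorem Sys.adj (S : Sys N F) (a b : Fin 3) (x : V) {e : V} (he : e ∈ N) (he0 : e ≠ 0) :
    ∃ c : ℤ, ∀ v, iv (F (c2 a x b (x + e))) v =
      iv (F (c1 a x)) v + iv (F (c1 b (x + e))) v + c * dl x v - c * dl (x + e) v := by
  have hne : x ≠ x + e := fun h => he0 (by linear_combination -h)
  rcases S.pair a b hne with h | ⟨z, z', h1, h2, h3, h4, h5, h6, c, hc, h⟩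
  · exact ⟨0, fun v => by rw [h]; simp⟩
  · have k1 : x - x ∈ N := by rw [sub_self]; exact S.N0
    have k2 : x + e - x ∈ N := by rw [add_sub_cancel_left]; exact he
    have hz : z = x ∨ z = x + e := by
      rcases seen_two S hne k1 k2 h3 h4 with h | h
      · exact Or.inl h
      · right; linear_combination h
    rcases hz with hz | hz
    · have hz' : z' = x + e := by rw [hz] at h2; linear_combination h2
      refine ⟨c, fun v => ?_⟩
      rw [h, hz, hz']
      simp only [Pi.add_apply, Pi.sub_apply, Pi.smul_apply, smul_eq_mul]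
    · have hz' : z' = x := by rw [hz] at h2; linear_combination h2
      refine ⟨-c, fun v => ?_⟩
      rw [h, hz, hz']
      simp only [Pi.add_apply, Pi.sub_apply, Pi.smul_apply, smul_eq_mul]
      ring

theorem Sys.straight' (S : Sys N F) (a b : Fin 3) (q : V) {u : V} (hu : u ∈ N) (hu0 : u ≠ 0)
    (v : V) :
    iv (F (c2 a q b (q + u + u))) v = iv (F (c1 a q)) v + iv (F (c1 b (q + u + u))) v := by
  rw [S.straight a b q hu hu0]; rfl

/-- two ones -/
theorem one_one (S : Sys N F) {m : V} (hmN : m ∈ N)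
    (h1 : ∀ p v, iv (F (c1 1 p)) v = dl (p + m) v) {p q : V} (hpq : p ≠ q) :
    (∀ v, iv (F (c2 1 p 1 q)) v = dl (p + m) v + dl (q + m) v) ∨
    (m = 0 ∧ q - p ∈ N ∧ ((∀ v, iv (F (c2 1 p 1 q)) v = 2 * dl q v) ∨
      ∀ v, iv (F (c2 1 p 1 q)) v = 2 * dl p v)) := by
  rcases S.pair' 1 1 hpq with h | ⟨z, z', hzz, hs, hN, hN', c, hc, h⟩
  · left; intro v; rw [h, h1, h1]
  · have hne : p + m ≠ q + m := fun hh => hpq (add_right_cancel hh)
    have hat := h z'
    rw [dl_self, dl_ne (Ne.symm hzz), h1, h1] at hat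
    have hnn := iv_nonneg (F (c2 1 p 1 q)) z'
    -- the case split in a symmetric form
    have key : ∀ p q : V, p ≠ q → z + z' = p + q → z' = p + m →
        (∀ v, iv (F (c2 1 p 1 q)) v =
          iv (F (c1 1 p)) v + iv (F (c1 1 q)) v + dl z v - dl z' v) →
        m = 0 ∧ ∀ v, iv (F (c2 1 p 1 q)) v = 2 * dl q v := by
      intro p q hpq hs hz' h
      have hz : z = q - m := by rw [hz'] at hs; linear_combination hs
      have hG : ∀ v, iv (F (c2 1 p 1 q)) v = dl (q + m) v + dl (q - m) v := by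
        intro v
        rw [h, h1, h1, hz, hz']; ring
      by_cases hm0 : m = 0
      · refine ⟨hm0, fun v => ?_⟩
        rw [hG, hm0, add_zero, sub_zero]; ring
      · exfalso
        have hm' : -m ≠ 0 := neg_ne_zero.2 hm0
        have hst := S.straight' 1 1 q (S.Nneg m hmN) hm'
        have e1 : q + -m + -m + m = q - m := by ring
        refine S.clash (x := c2 1 p 1 q) (y := c2 1 q 1 (q + -m + -m)) (fun v => ?_) p ?_
        · rw [hG, hst, h1, h1, e1]
        · rw [c2_p, c2_o 1 1 hpq]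
          · decide
          · intro hh
            apply hzz
            rw [hz, hz', hh]; ring
    by_cases hz1 : z' = p + m
    · rw [hz1, dl_self, dl_ne hne] at hat
      have hc1 : c = 1 := by rw [hz1] at hnn; omega
      obtain ⟨hm0, hG⟩ := key p q hpq hs hz1 (fun v => by rw [h, hc1]; ring)
      right
      refine ⟨hm0, ?_, Or.inl hG⟩
      rw [hz1, hm0, add_zero] at hN; exact hN
    · by_cases hz2 : z' = q + m
      · rw [hz2, dl_self, dl_ne (Ne.symm hne)] at hat
        have hc1 : c = 1 := by rw [hz2] at hnn; omega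
        obtain ⟨hm0, hG⟩ := key q p (Ne.symm hpq) (by rw [hs]; ring) hz2
          (fun v => by rw [c2_comm 1 1 (Ne.symm hpq), h, hc1]; ring)
        right
        refine ⟨hm0, ?_, Or.inr fun v => ?_⟩
        · have : p - z' ∈ N := hN'
          rw [hz2, hm0, add_zero] at this
          have e : q - p = -(p - q) := by ring
          rw [e]; exact S.Nneg _ this
        · rw [c2_comm 1 1 hpq]; exact hG v
      · exfalso
        rw [dl_ne hz1, dl_ne hz2] at hat
        omega

/-- first bad case: twos split towards `+e`, pairs of ones merge -/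
theorem bad1 (S : Sys N F) {e : V} (he : e ∈ N) (he0 : e ≠ 0)
    (h1 : ∀ p v, iv (F (c1 1 p)) v = dl p v)
    (h2 : ∀ p v, iv (F (c1 2 p)) v = dl p v + dl (p + e) v)
    (h11 : ∀ p v, iv (F (c2 1 p 1 (p + e))) v = 2 * dl p v) : False := by
  have n1 : (0 : V) ≠ 0 + e := fun h => he0 (by linear_combination -h)
  have n2 : (0 : V) + e ≠ 0 + e + e := fun h => he0 (by linear_combination -h)
  have n3 : (0 : V) ≠ 0 + e + e := fun h => he0 (S.tf e (by linear_combination -h))
  obtain ⟨c, hc⟩ := S.adj 2 1 0 he he0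
  have T211 := S.triple 2 1 1 n1 n2 n3 (0 + e)
  rw [S.straight' 2 1 0 he he0, hc, h11, h1, h1, h2, dl_self, dl_ne (Ne.symm n1)] at T211
  have b1 := iv_le (F (c3 2 (0 : V) 1 (0 + e) 1 (0 + e + e))) (0 + e)
  have b2 := iv_le (F (c2 2 (0 : V) 1 (0 + e))) 0
  rw [hc, h1, h2, dl_self, dl_ne n1] at b2
  have hc1 : c = 1 := by omega
  refine S.clash (x := c2 2 (0 : V) 1 (0 + e)) (y := c3 1 (0 : V) 1 (0 + e) 1 (0 + e + e))
    (fun v => ?_) 0 ?_
  · rw [hc, S.triple 1 1 1 n1 n2 n3 v, S.straight' 1 1 0 he he0, h11, h11, h1, h1, h1, h2, hc1]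
    ring
  · rw [c2_p, c3_p]; decide

/-- second bad case: twos split towards `-e`, pairs of ones merge -/
theorem bad2 (S : Sys N F) {e : V} (he : e ∈ N) (he0 : e ≠ 0)
    (h1 : ∀ p v, iv (F (c1 1 p)) v = dl p v)
    (h2 : ∀ p v, iv (F (c1 2 p)) v = dl p v + dl (p - e) v)
    (h11 : ∀ p v, iv (F (c2 1 p 1 (p + e))) v = 2 * dl p v) : False := by
  have n1 : ∀ x : V, x ≠ x + e := fun x h => he0 (by linear_combination -h)
  have n3 : ∀ x : V, x ≠ x + e + e := fun x h => he0 (S.tf e (by linear_combination -h))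
  have n4 : ∀ x : V, x + e ≠ x - e := fun x h => he0 (S.tf e (by linear_combination h))
  -- (1,2)
  have h12 : ∀ x v, iv (F (c2 1 x 2 (x + e))) v = dl x v + 2 * dl (x + e) v := by
    intro x
    obtain ⟨c, hc⟩ := S.adj 1 2 x he he0
    have e1 : x + e - e = x := by ring
    have b1 := iv_le (F (c2 1 x 2 (x + e))) x
    rw [hc, h1, h2, e1, dl_self, dl_ne (n1 x)] at b1
    have b2 := iv_le (F (c2 1 x 2 (x + e))) (x + e)
    rw [hc, h1, h2, e1, dl_self, dl_ne (Ne.symm (n1 x))] at b2
    by_cases hc0 : c = 0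
    · exfalso
      refine S.clash (x := c2 1 x 2 (x + e)) (y := c3 1 x 1 (x + e) 1 (x + e + e))
        (fun v => ?_) (x + e) ?_
      · rw [hc, S.triple 1 1 1 (n1 x) (n1 (x + e)) (n3 x) v, S.straight' 1 1 x he he0, h11, h11,
          h1, h1, h1, h2, hc0, e1]
        ring
      · rw [c2_q 1 2 (n1 x), c3_q 1 1 1 _ (n1 x)]; decide
    · have hc1 : c = -1 := by omega
      intro v
      rw [hc, h1, h2, e1, hc1]; ring
  -- (2,1)
  obtain ⟨c, hc⟩ := S.adj 2 1 (0 : V) he he0
  have T211 := S.triple 2 1 1 (n1 0) (n1 (0 + e)) (n3 0) (0 + e)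
  rw [S.straight' 2 1 0 he he0, hc, h11, h1, h1, h2, dl_self, dl_ne (Ne.symm (n1 0)),
    dl_ne (n4 0)] at T211
  have b1 := iv_le (F (c3 2 (0 : V) 1 (0 + e) 1 (0 + e + e))) (0 + e)
  have b2 := iv_nonneg (F (c2 2 (0 : V) 1 (0 + e))) (0 + e)
  rw [hc, h1, h2, dl_self, dl_ne (Ne.symm (n1 0)), dl_ne (n4 0)] at b2
  have hcc : c = 0 ∨ c = 1 := by omega
  rcases hcc with hc0 | hc1
  · refine S.clash (x := c2 2 (0 : V) 1 (0 + e)) (y := c2 1 (0 - e) 2 (0 - e + e + e))
      (fun v => ?_) 0 ?_
    · rw [hc, S.straight' 1 2 (0 - e) he he0, h1, h1, h2, h2, hc0]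
      have e1 : (0 : V) - e + e + e = 0 + e := by ring
      have e2 : (0 : V) + e - e = 0 := by ring
      rw [e1, e2]; ring
    · rw [c2_p, c2_o 1 2]
      · decide
      · intro h; exact he0 (by linear_combination h)
      · intro h; exact he0 (by linear_combination -h)
  · refine S.clash (x := c2 2 (0 : V) 1 (0 + e)) (y := c2 1 (0 - e) 2 (0 - e + e))
      (fun v => ?_) (0 + e) ?_
    · rw [hc, h12, h1, h2, hc1]
      have e1 : (0 : V) - e + e = 0 := by ring
      rw [e1]; ring
    · rw [c2_q 2 1 (n1 0), c2_o 1 2 (n4 0)]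
      · decide
      · intro h; exact he0 (by linear_combination h)

/-- the twos move as a block and ones do not interact -/
theorem twos (S : Sys N F) {m : V} (hmN : m ∈ N)
    (h1 : ∀ p v, iv (F (c1 1 p)) v = dl (p + m) v) :
    (∃ n ∈ N, ∀ p v, iv (F (c1 2 p)) v = 2 * dl (p + n) v) ∧
    ∀ p q : V, p ≠ q → ∀ v, iv (F (c2 1 p 1 q)) v = dl (p + m) v + dl (q + m) v := by
  rcases single2 S with ⟨n, hn, h2⟩ | ⟨n, hn, n', hn', hne, h2⟩
  · refine ⟨⟨n, hn, h2⟩, fun p q hpq => ?_⟩
    rcases one_one S hmN h1 hpq with h | ⟨-, -, h | h⟩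
    · exact h
    · exfalso
      refine S.clash (x := c2 1 p 1 q) (y := c1 2 (q - n)) (fun v => ?_) p ?_
      · rw [h, h2]
        have e1 : q - n + n = q := by ring
        rw [e1]
      · rw [c2_p]; unfold c1; split_ifs <;> decide
    · exfalso
      refine S.clash (x := c2 1 p 1 q) (y := c1 2 (p - n)) (fun v => ?_) p ?_
      · rw [h, h2]
        have e1 : p - n + n = p := by ring
        rw [e1]
      · rw [c2_p]; unfold c1; split_ifs <;> decide
  · exfalso
    -- the symmetric statement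
    have key : ∀ n ∈ N, ∀ n' ∈ N, n ≠ n' → m = 0 → n' - n ∈ N →
        (∀ p v, iv (F (c1 2 p)) v = dl (p + n) v + dl (p + n') v) →
        (∀ v, iv (F (c2 1 n 1 n')) v = 2 * dl n' v) → False := by
      intro n hn n' hn' hne hm hN h2 h11
      have h1' : ∀ p v, iv (F (c1 1 p)) v = dl p v := by
        intro p v; rw [h1, hm, add_zero]
      have hcase : n = 0 ∨ n' = 0 := by
        rcases S.sid n hn n' hn' 0 S.N0 (n' - n) hN (by ring) (Ne.symm hne) with h | h
        · exact Or.inl h.symm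
        · exact Or.inr (neg_eq_zero.1 h.symm)
      rcases hcase with hz | hz
      · -- `n = 0`: `e = -n'`
        subst hz
        have he0 : -n' ≠ 0 := neg_ne_zero.2 (Ne.symm hne)
        refine bad2 S (S.Nneg n' hn') he0 h1' (fun p v => ?_) (fun p v => ?_)
        · rw [h2]
          have e1 : p - -n' = p + n' := by ring
          rw [e1, add_zero]
        · have h3 := S.shift2 1 1 0 n' (p + -n') v
          have e1 : (0 : V) + (p + -n') = p + -n' := by ring
          have e2 : n' + (p + -n') = p := by ring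
          rw [e1, e2, h11, dl_shift] at h3
          have hne2 : p ≠ p + -n' := fun h => he0 (by linear_combination -h)
          rw [c2_comm 1 1 hne2, h3]
          have e3 : p + -n' + n' = p := by ring
          rw [e3]
      · subst hz
        refine bad1 S hn hne h1' (fun p v => ?_) (fun p v => ?_)
        · rw [h2, add_zero]; ring
        · have h3 := S.shift2 1 1 n 0 p v
          have e1 : (0 : V) + p = p := by ring
          have e2 : n + p = p + n := by ring
          rw [e1, e2, h11, dl_shift, add_zero] at h3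
          have hne2 : p ≠ p + n := fun h => hne (by linear_combination -h)
          rw [c2_comm 1 1 hne2, h3]
    have hne2 : n - m ≠ n' - m := fun h => hne (sub_left_injective h)
    rcases one_one S hmN h1 hne2 with h | ⟨hm, hN, h⟩
    · refine S.clash (x := c2 1 (n - m) 1 (n' - m)) (y := c1 2 0) (fun v => ?_) (n - m) ?_
      · rw [h, h2]
        have e1 : n - m + m = 0 + n := by ring
        have e2 : n' - m + m = 0 + n' := by ring
        rw [e1, e2]
      · rw [c2_p]; unfold c1; split_ifs <;> decide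
    · rw [hm, sub_zero, sub_zero] at hN h
      rcases h with h | h
      · exact key n hn n' hn' hne hm hN h2 h
      · refine key n' hn' n hn (Ne.symm hne) hm ?_ (fun p v => by rw [h2]; ring)
          (fun v => by rw [c2_comm 1 1 (Ne.symm hne), h])
        have e : n - n' = -(n' - n) := by ring
        rw [e]; exact S.Nneg _ hN

/-- ones stay, twos move: impossible -/
theorem bad3 (S : Sys N F) {e : V} (he : e ∈ N) (he0 : e ≠ 0)
    (h1 : ∀ p v, iv (F (c1 1 p)) v = dl p v)
    (h2 : ∀ p v, iv (F (c1 2 p)) v = 2 * dl (p - e) v)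
    (h21 : ∀ v, iv (F (c2 2 0 1 (-e))) v = 2 * dl (-e) v + dl 0 v) : False := by
  have n1 : ∀ x : V, x ≠ x + e := fun x h => he0 (by linear_combination -h)
  have n3 : ∀ x : V, x ≠ x + e + e := fun x h => he0 (S.tf e (by linear_combination -h))
  have n5 : (0 : V) ≠ 0 - e := fun h => he0 (by linear_combination h)
  have n6 : (0 : V) + e ≠ 0 - e := fun h => he0 (S.tf e (by linear_combination h))
  have em : (-e : V) = 0 - e := by ring
  rw [em] at h21
  have h12 : ∀ v, iv (F (c2 1 (0 - e) 2 0)) v = 2 * dl (0 - e) v + dl 0 v := by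
    intro v; rw [c2_comm 1 2 (Ne.symm n5), h21]
  -- (2,1) forward
  have hf : ∀ v, iv (F (c2 2 0 1 (0 + e))) v = 2 * dl (0 - e) v + dl (0 + e) v := by
    obtain ⟨c, hc⟩ := S.adj 2 1 (0 : V) he he0
    have b1 := iv_nonneg (F (c2 2 (0 : V) 1 (0 + e))) 0
    rw [hc, h1, h2, dl_self, dl_ne (n1 0), dl_ne n5] at b1
    have b2 := iv_nonneg (F (c2 2 (0 : V) 1 (0 + e))) (0 + e)
    rw [hc, h1, h2, dl_self, dl_ne (Ne.symm (n1 0)), dl_ne n6] at b2
    by_cases hc1 : c = 1
    · exfalso
      refine S.clash (x := c2 2 (0 : V) 1 (0 + e)) (y := c2 2 0 1 (0 - e)) (fun v => ?_)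
        (0 + e) ?_
      · rw [hc, h21, h1, h2, hc1]; ring
      · rw [c2_q 2 1 (n1 0), c2_o 2 1 (Ne.symm (n1 0)) n6]; decide
    · have hc0 : c = 0 := by omega
      intro v
      rw [hc, h1, h2, hc0]; ring
  -- (2,2)
  obtain ⟨c, hc⟩ := S.adj 2 2 (0 : V) he he0
  have e0 : (0 : V) + e - e = 0 := by ring
  have b1 := iv_le (F (c2 2 (0 : V) 2 (0 + e))) (0 + e)
  rw [hc, h2, h2, e0, dl_self, dl_ne (Ne.symm (n1 0)), dl_ne n6] at b1
  have k1 : (0 : V) - e ≠ 0 := Ne.symm n5
  have k2 : (0 : V) - e ≠ 0 + e := Ne.symm n6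
  have hst : ∀ (a b : Fin 3) (v : V), iv (F (c2 a (0 - e) b (0 + e))) v =
      iv (F (c1 a (0 - e))) v + iv (F (c1 b (0 + e))) v := by
    intro a b v
    have := S.straight' a b (0 - e) he he0 v
    have e1 : (0 : V) - e + e + e = 0 + e := by ring
    rw [e1] at this
    exact this
  have T := S.triple 1 2 2 k1 (n1 0) k2 0
  rw [hst, h12, hc, h1, h2, h2, e0, dl_self, dl_ne n5, dl_ne (n1 0)] at T
  have b2 := iv_le (F (c3 1 ((0 : V) - e) 2 0 2 (0 + e))) 0
  have hcc : c = -1 ∨ c = -2 := by omega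
  rcases hcc with hc1 | hc2
  · refine S.clash (x := c2 2 (0 : V) 2 (0 + e)) (y := c3 1 (0 - e) 2 0 1 (0 + e))
      (fun v => ?_) (0 - e) ?_
    · rw [hc, S.triple 1 2 1 k1 (n1 0) k2 v, hst, h12, hf, h1, h1, h2, h2, hc1, e0]; ring
    · rw [c3_p, c2_o 2 2 k1 k2]; decide
  · refine S.clash (x := c2 2 (0 : V) 2 (0 + e)) (y := c2 2 0 2 (0 + e + e))
      (fun v => ?_) (0 + e) ?_
    · rw [hc, S.straight' 2 2 0 he he0, h2, h2, h2, hc2, e0]
      have e1 : (0 : V) + e + e - e = 0 + e := by ring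
      rw [e1]; ring
    · rw [c2_q 2 2 (n1 0), c2_o 2 2 (Ne.symm (n1 0)) (n1 (0 + e))]; decide

/-- twos stay, ones move: impossible -/
theorem bad4 (S : Sys N F) {e : V} (he : e ∈ N) (he0 : e ≠ 0)
    (h1 : ∀ p v, iv (F (c1 1 p)) v = dl (p - e) v)
    (h11 : ∀ p q : V, p ≠ q → ∀ v, iv (F (c2 1 p 1 q)) v = dl (p - e) v + dl (q - e) v)
    (h21 : ∀ v, iv (F (c2 2 0 1 (0 + e))) v = dl 0 v + 2 * dl (0 + e) v) : False := by
  have n1 : ∀ x : V, x ≠ x + e := fun x h => he0 (by linear_combination -h)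
  have n3 : ∀ x : V, x ≠ x + e + e := fun x h => he0 (S.tf e (by linear_combination -h))
  have T := S.triple 2 1 1 (n1 0) (n1 (0 + e)) (n3 0) (0 + e)
  have e0 : (0 : V) + e - e = 0 := by ring
  have e1 : (0 : V) + e + e - e = 0 + e := by ring
  rw [S.straight' 2 1 0 he he0, h21, h11 _ _ (n1 (0 + e)), h1, h1, e0, e1, dl_self,
    dl_ne (Ne.symm (n1 0))] at T
  have b := iv_le (F (c3 2 (0 : V) 1 (0 + e) 1 (0 + e + e))) (0 + e)
  omega

/-- ones and twos move together -/
theorem same (S : Sys N F) {m n : V} (hmN : m ∈ N) (hnN : n ∈ N)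
    (h1 : ∀ p v, iv (F (c1 1 p)) v = dl (p + m) v)
    (h2 : ∀ p v, iv (F (c1 2 p)) v = 2 * dl (p + n) v)
    (h11 : ∀ p q : V, p ≠ q → ∀ v, iv (F (c2 1 p 1 q)) v = dl (p + m) v + dl (q + m) v) :
    n = m := by
  by_contra hnm
  have hq : (0 : V) ≠ n - m := fun h => hnm (by linear_combination -h)
  have e1 : n - m + m = n := by ring
  rcases S.pair' 2 1 hq with h | ⟨z, z', hzz, hs, -, -, c, hc, h⟩
  · have b := iv_le (F (c2 2 (0 : V) 1 (n - m))) n
    rw [h, h1, h2, e1, zero_add, dl_self] at b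
    omega
  · have b := iv_le (F (c2 2 (0 : V) 1 (n - m))) n
    rw [h, h1, h2, e1, zero_add, dl_self] at b
    have hz' : z' = n := by
      by_contra hne
      rw [dl_ne (Ne.symm hne)] at b
      have := dl_nonneg z n
      nlinarith
    have hz : z = -m := by rw [hz'] at hs; linear_combination hs
    have b2 := iv_le (F (c2 2 (0 : V) 1 (n - m))) z
    rw [h, h1, h2, e1, zero_add, dl_self, dl_ne hzz, ← hz', dl_ne hzz] at b2
    have hmn : n ≠ -m := fun hh => hzz (by rw [hz, hz', hh])
    have hcc : c = 1 ∨ c = 2 := by omega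
    rcases hcc with hc1 | hc2
    · by_cases hm0 : m = 0
      · -- ones stay, twos move
        subst hm0
        have hn0 : -n ≠ 0 := neg_ne_zero.2 hnm
        refine bad3 S (S.Nneg n hnN) hn0 (fun p v => ?_) (fun p v => ?_) (fun v => ?_)
        · rw [h1, add_zero]
        · rw [h2]; congr 2; ring
        · have e3 : (- -n : V) = n - 0 := by ring
          rw [e3, h, h1, h2, hz, hz', hc1]
          have e4 : (0 : V) + n = n - 0 := by ring
          have e5 : (n : V) - 0 + 0 = n - 0 := by ring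
          have e6 : (-0 : V) = 0 := by ring
          rw [e4, e5, e6, sub_zero]; ring
      · have hm' : -m ≠ 0 := neg_ne_zero.2 hm0
        refine S.clash (x := c2 2 (0 : V) 1 (n - m)) (y := c2 2 0 1 (0 + -m + -m))
          (fun v => ?_) (n - m) ?_
        · rw [h, S.straight' 2 1 0 (S.Nneg m hmN) hm', h1, h1, h2, hz, hz', hc1, e1, zero_add]
          have e2 : (0 : V) + -m + -m + m = -m := by ring
          rw [e2]; ring
        · rw [c2_q 2 1 hq, c2_o 2 1 (Ne.symm hq)]
          · decide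
          · intro hh; exact hmn (by linear_combination hh)
    · by_cases hn0 : n = 0
      · subst hn0
        have hm' : -m ≠ 0 := neg_ne_zero.2 (Ne.symm hnm)
        refine bad4 S (S.Nneg m hmN) hm' (fun p v => ?_) (fun p q hpq v => ?_) (fun v => ?_)
        · rw [h1]; congr 1; ring
        · rw [h11 p q hpq]
          have e2 : p - -m = p + m := by ring
          have e3 : q - -m = q + m := by ring
          rw [e2, e3]
        · have e2 : (0 : V) + -m = 0 - m := by ring
          rw [e2, h, h1, h2, e1, hz, hz', hc2]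
          have e3 : (0 : V) + 0 = 0 := by ring
          have e4 : (-m : V) = 0 - m := by ring
          rw [e3, e4]; ring
      · have hn' : -n ≠ 0 := neg_ne_zero.2 hn0
        refine S.clash (x := c2 2 (0 : V) 1 (n - m)) (y := c2 1 (n - m) 2 (n - m + -n + -n))
          (fun v => ?_) 0 ?_
        · rw [h, S.straight' 1 2 (n - m) (S.Nneg n hnN) hn', h1, h2, h2, hz, hz', hc2, e1,
            zero_add]
          have e2 : (n : V) - m + -n + -n + n = -m := by ring
          rw [e2]; ring
        · rw [c2_p, c2_o 1 2 hq]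
          · decide
          · intro hh; exact hmn (by linear_combination hh)

/-- three ones -/
theorem ones3 (S : Sys N F) {u : V} (h1 : ∀ p v, iv (F (c1 1 p)) v = dl (p + u) v)
    (h11 : ∀ p q : V, p ≠ q → ∀ v, iv (F (c2 1 p 1 q)) v = dl (p + u) v + dl (q + u) v)
    {p q r : V} (hpq : p ≠ q) (hqr : q ≠ r) (hpr : p ≠ r) (v : V) :
    iv (F (c3 1 p 1 q 1 r)) v = dl (p + u) v + dl (q + u) v + dl (r + u) v := by
  rw [S.triple 1 1 1 hpq hqr hpr, h11 _ _ hpq, h11 _ _ hqr, h11 _ _ hpr, h1, h1, h1]; ring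

/-- a two and a one -/
theorem two_one (S : Sys N F) {u : V} (huN : u ∈ N)
    (h1 : ∀ p v, iv (F (c1 1 p)) v = dl (p + u) v)
    (h2 : ∀ p v, iv (F (c1 2 p)) v = 2 * dl (p + u) v)
    (h11 : ∀ p q : V, p ≠ q → ∀ v, iv (F (c2 1 p 1 q)) v = dl (p + u) v + dl (q + u) v)
    {p q : V} (hpq : p ≠ q) :
    (∀ v, iv (F (c2 2 p 1 q)) v = 2 * dl (p + u) v + dl (q + u) v) ∨
    (u = 0 ∧ q - p ∈ N ∧ ∀ v, iv (F (c2 2 p 1 q)) v = dl p v + 2 * dl q v) := by
  rcases S.pair' 2 1 hpq with h | ⟨z, z', hzz, hs, hN, hN', c, hc, h⟩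
  · left; intro v; rw [h, h1, h2]
  · have hne : p + u ≠ q + u := fun hh => hpq (add_right_cancel hh)
    have hat := h z'
    rw [dl_self, dl_ne (Ne.symm hzz), h1, h2] at hat
    have hnn := iv_nonneg (F (c2 2 p 1 q)) z'
    have hle := iv_le (F (c2 2 p 1 q)) z
    rw [h, dl_self, dl_ne hzz, h1, h2] at hle
    by_cases hz1 : z' = p + u
    · have hz : z = q - u := by rw [hz1] at hs; linear_combination hs
      rw [hz1, dl_self, dl_ne hne] at hat
      rw [hz1] at hnn
      have hp2 : p ≠ q + -u + -u := by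
        intro hh
        apply hzz
        rw [hz, hz1, hh]; ring
      have hcc : c = 1 ∨ c = 2 := by omega
      by_cases hu0 : u = 0
      · right
        have hzq : z = q := by rw [hz, hu0, sub_zero]
        have hzp : z' = p := by rw [hz1, hu0, add_zero]
        rw [hzq, hu0, add_zero, add_zero, dl_self] at hle
        have := dl_nonneg p q
        have hc1 : c = 1 := by omega
        refine ⟨hu0, ?_, fun v => ?_⟩
        · rw [hzp] at hN; exact hN
        · rw [h, h1, h2, hu0, add_zero, add_zero, hzq, hzp, hc1]; ring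
      · exfalso
        have hu' : -u ≠ 0 := neg_ne_zero.2 hu0
        have hq2 : q ≠ q + -u + -u := by
          intro hh
          apply hu0
          apply S.tf
          linear_combination hh
        have e1 : q + -u + -u + u = q - u := by ring
        rcases hcc with hc1 | hc2
        · refine S.clash (x := c2 2 p 1 q) (y := c3 1 p 1 q 1 (q + -u + -u)) (fun v => ?_) p ?_
          · rw [h, h1, h2, ones3 S h1 h11 hpq hq2 hp2, hz, hz1, hc1, e1]; ring
          · rw [c2_p, c3_p]; decide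
        · refine S.clash (x := c2 2 p 1 q) (y := c2 1 q 2 (q + -u + -u)) (fun v => ?_) p ?_
          · rw [h, S.straight' 1 2 q (S.Nneg u huN) hu', h1, h2, h2, hz, hz1, hc2, e1]; ring
          · rw [c2_p, c2_o 1 2 hpq hp2]; decide
    · by_cases hz2 : z' = q + u
      · exfalso
        have hz : z = p - u := by rw [hz2] at hs; linear_combination hs
        rw [hz2, dl_self, dl_ne (Ne.symm hne)] at hat
        rw [hz2] at hnn
        have hc1 : c = 1 := by omega
        by_cases hu0 : u = 0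
        · rw [hz, hu0, sub_zero, add_zero, add_zero, dl_self, dl_ne hpq, hc1] at hle
          omega
        · have hu' : -u ≠ 0 := neg_ne_zero.2 hu0
          have e1 : p + -u + -u + u = p - u := by ring
          refine S.clash (x := c2 2 p 1 q) (y := c2 2 p 1 (p + -u + -u)) (fun v => ?_) q ?_
          · rw [h, S.straight' 2 1 p (S.Nneg u huN) hu', h1, h1, h2, hz, hz2, hc1, e1]; ring
          · rw [c2_q 2 1 hpq, c2_o 2 1 (Ne.symm hpq)]
            · decide
            · intro hh
              apply hzz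
              rw [hz, hz2, hh]; ring
      · exfalso
        rw [dl_ne hz1, dl_ne hz2] at hat
        omega

theorem two_one' (S : Sys N F) {u : V} (huN : u ∈ N)
    (h1 : ∀ p v, iv (F (c1 1 p)) v = dl (p + u) v)
    (h2 : ∀ p v, iv (F (c1 2 p)) v = 2 * dl (p + u) v)
    (h11 : ∀ p q : V, p ≠ q → ∀ v, iv (F (c2 1 p 1 q)) v = dl (p + u) v + dl (q + u) v)
    {p q : V} (hpq : p ≠ q) (v : V) :
    iv (F (c2 2 p 1 q)) v = 2 * dl (p + u) v + dl (q + u) v := by
  rcases two_one S huN h1 h2 h11 hpq with h | ⟨hu, hN, h⟩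
  · exact h v
  · exfalso
    subst hu
    simp only [add_zero] at h1 h2 h11
    -- the mirror pair is swapped as well
    have h' : ∀ v, iv (F (c2 2 q 1 p)) v = dl q v + 2 * dl p v := by
      rcases two_one S huN (by simpa using h1) (by simpa using h2) (by simpa using h11)
        (Ne.symm hpq) with h3 | ⟨-, -, h3⟩
      · exfalso
        refine S.clash (x := c2 2 p 1 q) (y := c2 2 q 1 p) (fun v => ?_) p ?_
        · rw [h, h3, add_zero, add_zero]; ring
        · rw [c2_p, c2_q 2 1 (Ne.symm hpq)]; decide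
      · exact h3
    set e := q - p with he
    have he0 : e ≠ 0 := fun hh => hpq (by rw [he] at hh; linear_combination -hh)
    have eq1 : q = p + e := by rw [he]; ring
    have n1 : ∀ x : V, x ≠ x + e := fun x h => he0 (by linear_combination -h)
    have n3 : ∀ x : V, x ≠ x + e + e := fun x h => he0 (S.tf e (by linear_combination -h))
    have h21 : ∀ v, iv (F (c2 2 (p + e) 1 (p + e + e))) v =
        dl (p + e) v + 2 * dl (p + e + e) v := by
      intro v
      have h3 := S.shift2 2 1 p q e v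
      rw [h, dl_shift, dl_shift, eq1] at h3
      have e2 : e + p = p + e := by ring
      have e3 : e + (p + e) = p + e + e := by ring
      rw [e2, e3] at h3
      exact h3
    have h12 : ∀ v, iv (F (c2 1 p 2 (p + e))) v = dl (p + e) v + 2 * dl p v := by
      intro v
      rw [c2_comm 1 2 (n1 p), ← eq1]; exact h' v
    refine S.clash (x := c3 1 p 2 (p + e) 1 (p + e + e)) (y := c2 2 p 2 (p + e + e))
      (fun v => ?_) p ?_
    · rw [S.triple 1 2 1 (n1 p) (n1 (p + e)) (n3 p), h12, h21, h11 _ _ (n3 p),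
        S.straight' 2 2 p hN he0, h1, h1, h2, h2, h2]
      ring
    · rw [c3_p, c2_p]; decide

/-- two twos -/
theorem two_two (S : Sys N F) {u : V} (huN : u ∈ N)
    (h1 : ∀ p v, iv (F (c1 1 p)) v = dl (p + u) v)
    (h2 : ∀ p v, iv (F (c1 2 p)) v = 2 * dl (p + u) v)
    (h11 : ∀ p q : V, p ≠ q → ∀ v, iv (F (c2 1 p 1 q)) v = dl (p + u) v + dl (q + u) v)
    {p q : V} (hpq : p ≠ q) (v : V) :
    iv (F (c2 2 p 2 q)) v = 2 * dl (p + u) v + 2 * dl (q + u) v := by
  have h21 : ∀ p q : V, p ≠ q → ∀ v, iv (F (c2 2 p 1 q)) v = 2 * dl (p + u) v + dl (q + u) v :=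
    fun p q hpq v => two_one' S huN h1 h2 h11 hpq v
  rcases S.pair' 2 2 hpq with h | ⟨z, z', hzz, hs, hN, hN', c, hc, h⟩
  · rw [h, h2, h2]
  · exfalso
    have key : ∀ p q : V, p ≠ q → z + z' = p + q → z' = p + u →
        (∀ v, iv (F (c2 2 p 2 q)) v =
          iv (F (c1 2 p)) v + iv (F (c1 2 q)) v + c * dl z v - c * dl z' v) → False := by
      intro p q hpq hs hz1 h
      have hne : p + u ≠ q + u := fun hh => hpq (add_right_cancel hh)
      have hat := h z'
      rw [dl_self, dl_ne (Ne.symm hzz), h2, h2, hz1, dl_self, dl_ne hne] at hat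
      have hnn := iv_nonneg (F (c2 2 p 2 q)) (p + u)
      have hle := iv_le (F (c2 2 p 2 q)) z
      rw [h, dl_self, dl_ne hzz, h2, h2] at hle
      have hz : z = q - u := by rw [hz1] at hs; linear_combination hs
      have hp2 : p ≠ q + -u + -u := by
        intro hh
        apply hzz
        rw [hz, hz1, hh]; ring
      by_cases hu0 : u = 0
      · rw [hz, hu0, sub_zero, add_zero, add_zero, dl_self] at hle
        have := dl_nonneg p q
        omega
      · have hu' : -u ≠ 0 := neg_ne_zero.2 hu0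
        have hq2 : q ≠ q + -u + -u := by
          intro hh
          apply hu0
          apply S.tf
          linear_combination hh
        have e1 : q + -u + -u + u = q - u := by ring
        have hcc : c = 1 ∨ c = 2 := by omega
        rcases hcc with hc1 | hc2
        · refine S.clash (x := c2 2 p 2 q) (y := c3 1 p 2 q 1 (q + -u + -u)) (fun v => ?_) p ?_
          · rw [h, S.triple 1 2 1 hpq hq2 hp2, c2_comm 1 2 hpq, h21 q p (Ne.symm hpq),
              h21 _ _ hq2, h11 _ _ hp2, h1, h1, h2, h2, hz, hz1, hc1, e1]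
            ring
          · rw [c2_p, c3_p]; decide
        · refine S.clash (x := c2 2 p 2 q) (y := c2 2 q 2 (q + -u + -u)) (fun v => ?_) p ?_
          · rw [h, S.straight' 2 2 q (S.Nneg u huN) hu', h2, h2, h2, hz, hz1, hc2, e1]; ring
          · rw [c2_p, c2_o 2 2 hpq hp2]; decide
    have hat := h z'
    rw [dl_self, dl_ne (Ne.symm hzz), h2, h2] at hat
    have hnn := iv_nonneg (F (c2 2 p 2 q)) z'
    by_cases hz1 : z' = p + u
    · exact key p q hpq hs hz1 h
    · by_cases hz2 : z' = q + u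
      · exact key q p (Ne.symm hpq) (by rw [hs]; ring) hz2
          (fun v => by rw [c2_comm 2 2 (Ne.symm hpq), h]; ring)
      · rw [dl_ne hz1, dl_ne hz2] at hat
        omega

end

end Pool.Agent.V5helper96.CA
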