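import Pool.Agent.V5helper96.CA.Final
import Pool.Agent.V5helper96.CA.Defs

/-!
The von Neumann neighbourhood is of Sidon type; conservation on finite configurations.
-/

set_option autoImplicit false
set_option linter.unusedSectionVars false

open scoped BigOperators

namespace Pool.Agent.V5helper96.CA

section
variable {d : ℕ}

theorem nb_finite (d : ℕ) : (nbhd d).Finite := by
  have : nbhd d ⊆ {0} ∪ (Set.range fun i : Fin d => (Pi.single i 1 : Fin d → ℤ)) ∪
      Set.range fun i : Fin d => (-Pi.single i 1 : Fin d → ℤ) := by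
    intro u hu
    rcases hu with h | ⟨i, h | h⟩
    · left; left; exact h
    · left; right; exact ⟨i, h.symm⟩
    · right; exact ⟨i, h.symm⟩
  exact (((Set.finite_singleton _).union (Set.finite_range _)).union (Set.finite_range _)).subset
    this

theorem nb_neg {u : Fin d → ℤ} (hu : u ∈ nbhd d) : -u ∈ nbhd d := by
  rcases hu with h | ⟨i, h | h⟩
  · left; rw [h, neg_zero]
  · right; exact ⟨i, Or.inr (by rw [h])⟩
  · right; exact ⟨i, Or.inl (by rw [h, neg_neg])⟩

/-- coordinates of the elements of the neighbourhood -/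
theorem nb_coord {u : Fin d → ℤ} (hu : u ∈ nbhd d) (k : Fin d) :
    (u k = 0 ∨ u k = 1 ∨ u k = -1) ∧ (u k ≠ 0 → ∀ j, j ≠ k → u j = 0) := by
  rcases hu with h | ⟨i, h | h⟩
  · subst h; simp
  · subst h
    by_cases hk : k = i
    · subst hk
      refine ⟨Or.inr (Or.inl (by simp)), fun _ j hj => by simp [hj]⟩
    · refine ⟨Or.inl (by simp [hk]), fun h0 => absurd (by simp [hk]) h0⟩
  · subst h
    by_cases hk : k = i
    · subst hk
      refine ⟨Or.inr (Or.inr (by simp)), fun _ j hj => by simp [hj]⟩
    · refine ⟨Or.inl (by simp [hk]), fun h0 => absurd (by simp [hk]) h0⟩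

theorem nb_eq {a b : Fin d → ℤ} (ha : a ∈ nbhd d) (hb : b ∈ nbhd d) (k : Fin d) (h0 : a k ≠ 0)
    (h : a k = b k) : a = b := by
  funext j
  by_cases hj : j = k
  · rw [hj, h]
  · rw [(nb_coord ha k).2 h0 j hj, (nb_coord hb k).2 (h ▸ h0) j hj]

/-- sums of two elements of the neighbourhood -/
theorem nb_sum {a b c e : Fin d → ℤ} (ha : a ∈ nbhd d) (hb : b ∈ nbhd d) (hc : c ∈ nbhd d)
    (he : e ∈ nbhd d) (h : a + b = c + e) : a = c ∨ a = e ∨ a + b = 0 := by
  by_contra hcon
  push Not at hcon
  obtain ⟨h1, h2, h3⟩ := hcon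
  apply h3
  funext k
  by_contra hk
  have hk' : a k + b k ≠ 0 := hk
  have hs : a k + b k = c k + e k := congrFun h k
  have ka := (nb_coord ha k).1
  have kb := (nb_coord hb k).1
  have kc := (nb_coord hc k).1
  have ke := (nb_coord he k).1
  by_cases ha0 : a k = 0
  · have hb0 : b k ≠ 0 := by intro h'; apply hk'; rw [ha0, h']; norm_num
    by_cases hbc : b k = c k
    · have := nb_eq hb hc k hb0 hbc
      apply h2
      subst this
      have : a + b = e + b := by rw [h]; ring
      exact add_right_cancel this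
    · by_cases hbe : b k = e k
      · have := nb_eq hb he k hb0 hbe
        apply h1
        subst this
        exact add_right_cancel h
      · omega
  · by_cases hac : a k = c k
    · exact h1 (nb_eq ha hc k ha0 hac)
    · by_cases hae : a k = e k
      · exact h2 (nb_eq ha he k ha0 hae)
      · omega

theorem nb_sid {u u' t t' : Fin d → ℤ} (hu : u ∈ nbhd d) (hu' : u' ∈ nbhd d) (ht : t ∈ nbhd d)
    (ht' : t' ∈ nbhd d) (h : u' - u = t' - t) (hne : u' ≠ u) : t = u ∨ t = -u' := by
  have h1 : t + u' = u + t' := by linear_combination h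
  rcases nb_sum ht hu' hu ht' h1 with h2 | h2 | h2
  · exact Or.inl h2
  · exfalso
    apply hne
    rw [h2] at h1
    linear_combination h1
  · right; linear_combination h2

theorem map_shift (f : (nbhd d → Fin 3) → Fin 3) (x : (Fin d → ℤ) → Fin 3) (w v : Fin d → ℤ) :
    globalMap f (fun t => x (t + w)) v = globalMap f x (v + w) := by
  unfold globalMap
  congr 1
  funext u
  show x (v + u + w) = x (v + w + u)
  rw [add_right_comm]

/-- conservation on finite configurations -/
theorem cons_finite (f : (nbhd d → Fin 3) → Fin 3) (h : NumberConserving (globalMap f))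
    (x : (Fin d → ℤ) → Fin 3) (W : Finset (Fin d → ℤ)) (hx : ∀ v, v ∉ W → x v = 0)
    (hF : ∀ v, v ∉ W → globalMap f x v = 0) :
    ∑ v ∈ W, iv (globalMap f x) v = ∑ v ∈ W, iv x v := by
  classical
  -- a bound for the coordinates
  obtain ⟨K, hK⟩ : ∃ K : ℕ, ∀ v ∈ W, ∀ i, |v i| ≤ K := by
    refine ⟨∑ v ∈ W, ∑ i, (v i).natAbs, fun v hv i => ?_⟩
    have h1 : (v i).natAbs ≤ ∑ i, (v i).natAbs :=
      Finset.single_le_sum (f := fun i => (v i).natAbs) (fun _ _ => Nat.zero_le _)
        (Finset.mem_univ i)
    have h2 : ∑ i, (v i).natAbs ≤ ∑ v ∈ W, ∑ i, (v i).natAbs :=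
      Finset.single_le_sum (f := fun v : Fin d → ℤ => ∑ i, (v i).natAbs)
        (fun _ _ => Nat.zero_le _) hv
    have h3 : |v i| = ((v i).natAbs : ℤ) := Int.abs_eq_natAbs _
    rw [h3]
    exact_mod_cast h1.trans h2
  set P : ℕ := 2 * K + 3 with hP
  set s : Fin d → ℤ := fun _ => (K : ℤ) + 1 with hs
  set y : (Fin d → ℤ) → Fin 3 := fun t => x (t - s) with hy
  -- `y` lives in `[1, P - 2]^d`
  have hy0 : ∀ t, (∃ i, t i < 1 ∨ (P : ℤ) - 2 < t i) → y t = 0 := by
    rintro t ⟨i, hi⟩
    apply hx
    intro hc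
    have h1 := abs_le.1 (hK _ hc i)
    simp only [Pi.sub_apply, hs] at h1
    omega
  set z : (Fin d → ℤ) → Fin 3 := fun t => y fun i => t i % (P : ℤ) with hz
  have hPpos : (0 : ℤ) < P := by omega
  have hper : ∀ v i, z (v + Pi.single i (P : ℤ)) = z v := by
    intro v i
    simp only [hz]
    congr 1
    funext j
    by_cases hj : j = i
    · subst hj; simp
    · simp [hj]
  set box : Finset (Fin d → ℤ) := Fintype.piFinset (fun _ : Fin d => Finset.Ico (0 : ℤ) P)
    with hbox
  have hmem : ∀ v, v ∈ box ↔ ∀ i, 0 ≤ v i ∧ v i < P := by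
    intro v
    simp only [hbox, Fintype.mem_piFinset, Finset.mem_Ico]
  have hcons := h (fun _ => P) (fun _ => by omega) z hper
  -- inside the box nothing has changed
  have hzy : ∀ v ∈ box, ∀ u ∈ nbhd d, z (v + u) = y (v + u) := by
    intro v hv u hu
    rw [hmem] at hv
    by_cases hin : ∀ i, 0 ≤ (v + u) i ∧ (v + u) i < P
    · simp only [hz]
      congr 1
      funext i
      exact Int.emod_eq_of_lt (hin i).1 (hin i).2
    · push Not at hin
      obtain ⟨i, hi⟩ := hin
      have hc := (nb_coord hu i).1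
      have hvi := hv i
      simp only [Pi.add_apply] at hi
      have hcase : (v i = 0 ∧ u i = -1) ∨ (v i = P - 1 ∧ u i = 1) := by
        by_cases h0 : 0 ≤ v i + u i
        · have := hi h0
          right; omega
        · left; omega
      rcases hcase with ⟨h1, h2⟩ | ⟨h1, h2⟩
      · have e1 : z (v + u) = 0 := by
          apply hy0
          refine ⟨i, Or.inr ?_⟩
          simp only [Pi.add_apply, h1, h2]
          have : ((0 : ℤ) + -1) % (P : ℤ) = P - 1 := by
            rw [zero_add, show (-1 : ℤ) = (P - 1) + (-1) * P by ring, Int.add_mul_emod_self_right]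
            exact Int.emod_eq_of_lt (by omega) (by omega)
          rw [this]; omega
        have e2 : y (v + u) = 0 := by
          apply hy0
          refine ⟨i, Or.inl ?_⟩
          simp only [Pi.add_apply, h1, h2]; omega
        rw [e1, e2]
      · have e1 : z (v + u) = 0 := by
          apply hy0
          refine ⟨i, Or.inl ?_⟩
          simp only [Pi.add_apply, h1, h2]
          have : ((P : ℤ) - 1 + 1) % (P : ℤ) = 0 := by
            rw [sub_add_cancel, Int.emod_self]
          rw [this]; omega
        have e2 : y (v + u) = 0 := by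
          apply hy0
          refine ⟨i, Or.inr ?_⟩
          simp only [Pi.add_apply, h1, h2]; omega
        rw [e1, e2]
  have hN0 : (0 : Fin d → ℤ) ∈ nbhd d := Or.inl rfl
  have hFz : ∀ v ∈ box, globalMap f z v = globalMap f x (v - s) := by
    intro v hv
    have h1 : globalMap f z v = globalMap f y v := by
      unfold globalMap
      congr 1
      funext u
      exact hzy v hv u.1 u.2
    have h2 := map_shift f x (-s) v
    have h3 : (fun t => x (t + -s)) = y := by
      funext t; simp only [hy, sub_eq_add_neg]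
    rw [h3] at h2
    rw [h1, h2, sub_eq_add_neg]
  have hzx : ∀ v ∈ box, z v = x (v - s) := by
    intro v hv
    have := hzy v hv 0 hN0
    rw [add_zero] at this
    rw [this]
  have hsumW : ∀ g : (Fin d → ℤ) → Fin 3, (∀ v, v ∉ W → g v = 0) →
      ∑ v ∈ box, ((g (v - s) : ℕ) : ℤ) = ∑ v ∈ W, iv g v := by
    intro g hg
    have h1 : ∑ v ∈ W, iv g v = ∑ v ∈ W.image fun v => v + s, ((g (v - s) : ℕ) : ℤ) := by
      rw [Finset.sum_image fun a _ b _ h => add_right_cancel h]
      refine Finset.sum_congr rfl fun v _ => ?_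
      rw [add_sub_cancel_right]; rfl
    rw [h1]
    symm
    apply Finset.sum_subset
    · intro v hv
      obtain ⟨w, hw, rfl⟩ := Finset.mem_image.1 hv
      rw [hmem]
      intro i
      have := abs_le.1 (hK w hw i)
      simp only [Pi.add_apply, hs]
      omega
    · intro v _ hv
      rw [hg]
      · rfl
      · intro hc
        exact hv (Finset.mem_image.2 ⟨v - s, hc, by ring⟩)
  have e1 : ∑ v ∈ box, ((globalMap f z v : ℕ) : ℤ) = ∑ v ∈ W, iv (globalMap f x) v := by
    rw [← hsumW (globalMap f x) hF]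
    exact Finset.sum_congr rfl fun v hv => by rw [hFz v hv]
  have e2 : ∑ v ∈ box, ((z v : ℕ) : ℤ) = ∑ v ∈ W, iv x v := by
    rw [← hsumW x hx]
    exact Finset.sum_congr rfl fun v hv => by rw [hzx v hv]
  rw [← e1, ← e2]
  exact_mod_cast hcons

theorem zero_fixed (f : (nbhd d → Fin 3) → Fin 3) (h : NumberConserving (globalMap f))
    (v : Fin d → ℤ) : globalMap f (fun _ => 0) v = 0 := by
  have h1 := h (fun _ => 1) (fun _ => one_pos) (fun _ => 0) (fun _ _ => rfl)
  have hmem : (0 : Fin d → ℤ) ∈ Fintype.piFinset (fun _ : Fin d => Finset.Ico (0 : ℤ) (1 : ℕ)) := by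
    simp
  have h2 : ∑ v ∈ Fintype.piFinset (fun _ : Fin d => Finset.Ico (0 : ℤ) (1 : ℕ)),
      (globalMap f (fun _ => 0) v : ℕ) = 0 := by
    rw [h1]; simp
  have h3 := (Finset.sum_eq_zero_iff.1 h2) 0 hmem
  have h4 : globalMap f (fun _ => 0) v = globalMap f (fun _ => 0) 0 := rfl
  rw [h4]
  exact Fin.ext h3

theorem sys (f : (nbhd d → Fin 3) → Fin 3) (h : NumberConserving (globalMap f))
    (hinj : Function.Injective (globalMap f)) :
    Sys (V := Fin d → ℤ) (nb_finite d).toFinset (globalMap f) where
  loc := by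
    intro x y v hxy
    unfold globalMap
    congr 1
    funext u
    exact hxy u.1 ((nb_finite d).mem_toFinset.2 u.2)
  eqv := map_shift f
  zero := zero_fixed f h
  cons := cons_finite f h
  inj := fun x y hxy => hinj hxy
  N0 := (nb_finite d).mem_toFinset.2 (Or.inl rfl)
  Nneg := fun u hu => (nb_finite d).mem_toFinset.2 (nb_neg ((nb_finite d).mem_toFinset.1 hu))
  sid := fun u hu u' hu' t ht t' ht' h hne =>
    nb_sid ((nb_finite d).mem_toFinset.1 hu) ((nb_finite d).mem_toFinset.1 hu')
      ((nb_finite d).mem_toFinset.1 ht) ((nb_finite d).mem_toFinset.1 ht') h hne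
  tf := by
    intro v hv
    funext i
    have := congrFun hv i
    simp only [Pi.add_apply, Pi.zero_apply] at this ⊢
    omega

end

end Pool.Agent.V5helper96.CA
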